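import Pool.Agent.helper73.BRZ.Spec

set_option autoImplicit false

namespace Pool.Agent.BRZ

open Finset

/-- Order of the kernel times order of the image. -/
theorem CNT_card {A B : Type} [AddGroup A] [AddGroup B] (f : A →+ B) :
    Nat.card A = Nat.card f.ker * Nat.card f.range := by
  rw [← AddSubgroup.index_ker, AddSubgroup.card_mul_index]

/-- The element of order `b`. -/
def CNT_g (m b : ℕ) : ZMod m := ((m / b : ℕ) : ZMod m)

theorem CNT_order (m b : ℕ) (hm : 0 < m) (hb : b ∣ m) : addOrderOf (CNT_g m b) = b := by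
  unfold CNT_g
  rw [ZMod.addOrderOf_coe _ hm.ne', Nat.gcd_eq_right (Nat.div_dvd_of_dvd hb),
    Nat.div_div_self hb hm.ne']

theorem CNT_ex (m b : ℕ) (hm : 0 < m) (hb : b ∣ m) (x : ZMod m) (hx : b • x = 0) :
    ∃ k : ℕ, x = k • CNT_g m b := by
  haveI : NeZero m := ⟨hm.ne'⟩
  obtain ⟨c, hc⟩ := hb
  have hb0 : 0 < b := by
    rcases Nat.eq_zero_or_pos b with h | h
    · rw [h, zero_mul] at hc
      omega
    · exact h
  have h1 : ((b * x.val : ℕ) : ZMod m) = 0 := by
    rw [Nat.cast_mul, ZMod.natCast_zmod_val, ← nsmul_eq_mul]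
    exact hx
  rw [ZMod.natCast_eq_zero_iff] at h1
  have h2 : b * c ∣ b * x.val := by
    rw [← hc]
    exact h1
  obtain ⟨k, hk⟩ := Nat.dvd_of_mul_dvd_mul_left hb0 h2
  refine ⟨k, ?_⟩
  have h3 : m / b = c := Nat.div_eq_of_eq_mul_right hb0 hc
  unfold CNT_g
  rw [h3, nsmul_eq_mul, ← Nat.cast_mul, mul_comm k c, ← hk, ZMod.natCast_zmod_val]

theorem CNT_mem (m b : ℕ) (hm : 0 < m) (hb : b ∣ m) (x : ZMod m) (hx : b • x = 0) :
    x ∈ AddSubgroup.zmultiples (CNT_g m b) := by
  obtain ⟨k, hk⟩ := CNT_ex m b hm hb x hx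
  rw [hk]
  exact AddSubgroup.nsmul_mem _ (AddSubgroup.mem_zmultiples _) k

theorem CNT_tors1 (m b : ℕ) (hm : 0 < m) (hb : b ∣ m) :
    Nat.card {x : ZMod m // b • x = 0} = b := by
  have h : Nat.card (AddSubgroup.zmultiples (CNT_g m b)) = b := by
    rw [Nat.card_zmultiples, CNT_order m b hm hb]
  refine Eq.trans (Nat.card_congr ?_) h
  apply Equiv.subtypeEquivRight
  intro x
  constructor
  · exact CNT_mem m b hm hb x
  · intro hx
    rw [AddSubgroup.mem_zmultiples_iff] at hx
    obtain ⟨k, rfl⟩ := hx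
    rw [smul_comm]
    have : b • CNT_g m b = 0 := by
      have h1 := addOrderOf_nsmul_eq_zero (CNT_g m b)
      rwa [CNT_order m b hm hb] at h1
    rw [this, smul_zero]

theorem CNT_tors (d m b : ℕ) (hm : 0 < m) (hb : b ∣ m) :
    Nat.card {v : Fin d → ZMod m // b • v = 0} = b ^ d := by
  have e : {v : Fin d → ZMod m // b • v = 0} ≃ (Fin d → {x : ZMod m // b • x = 0}) :=
    { toFun := fun v i => ⟨v.1 i, congrFun v.2 i⟩
      invFun := fun v => ⟨fun i => (v i).1, funext fun i => (v i).2⟩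
      left_inv := fun v => rfl
      right_inv := fun v => rfl }
  rw [Nat.card_congr e, Nat.card_pi]
  rw [Finset.prod_congr rfl fun i _ => CNT_tors1 m b hm hb]
  rw [Finset.prod_const, Finset.card_univ, Fintype.card_fin]

theorem CNT_pre (d m a b : ℕ) (hm : 0 < m) (hab : a * b ∣ m)
    (W : AddSubgroup (Fin d → ZMod m)) (hW : Nat.card W = a) :
    Nat.card {v : Fin d → ZMod m // b • v ∈ W} = a * b ^ d := by
  haveI : NeZero m := ⟨hm.ne'⟩
  have hb : b ∣ m := dvd_trans (dvd_mul_left b a) hab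
  have ha : a ∣ m := dvd_trans (dvd_mul_right a b) hab
  set H : AddSubgroup (Fin d → ZMod m) :=
    W.comap (nsmulAddMonoidHom b : (Fin d → ZMod m) →+ (Fin d → ZMod m)) with hH
  have hHm : ∀ v, v ∈ H ↔ b • v ∈ W := fun v => Iff.rfl
  have h0 : Nat.card {v : Fin d → ZMod m // b • v ∈ W} = Nat.card H := rfl
  set ψ : H →+ (Fin d → ZMod m) :=
    (nsmulAddMonoidHom b : (Fin d → ZMod m) →+ (Fin d → ZMod m)).comp H.subtype with hψ
  have hψx : ∀ v : H, ψ v = b • (v : Fin d → ZMod m) := fun v => rfl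
  have hr : ψ.range = W := by
    ext u
    rw [AddMonoidHom.mem_range]
    constructor
    · rintro ⟨v, rfl⟩
      exact (hHm v).1 v.2
    · intro hu
      have h1 : a • u = 0 := by
        have h2 : Nat.card W • (⟨u, hu⟩ : W) = 0 := card_nsmul_eq_zero'
        rw [hW] at h2
        have h3 := congrArg (fun x : W => (x : Fin d → ZMod m)) h2
        exact h3
      have h2 : ∀ i, ∃ k : ℕ, u i = k • CNT_g m a := fun i =>
        CNT_ex m a hm ha (u i) (congrFun h1 i)
      choose k hk using h2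
      obtain ⟨c, hc⟩ := hab
      have ha0 : 0 < a := by
        rw [← hW]
        exact Nat.card_pos
      have h4 : m / a = b * c := by
        apply Nat.div_eq_of_eq_mul_right ha0
        rw [hc, mul_assoc]
      have h5 : b • (fun i => k i • ((c : ℕ) : ZMod m)) = u := by
        funext i
        rw [hk i]
        unfold CNT_g
        rw [h4]
        show b • (k i • ((c : ℕ) : ZMod m)) = _
        simp only [nsmul_eq_mul, Nat.cast_mul]
        ring
      refine ⟨⟨fun i => k i • ((c : ℕ) : ZMod m), ?_⟩, ?_⟩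
      · rw [hHm, h5]
        exact hu
      · rw [hψx]
        exact h5
  have hk : Nat.card ψ.ker = b ^ d := by
    rw [← CNT_tors d m b hm hb]
    apply Nat.card_congr
    refine
      { toFun := fun v => ⟨v.1.1, (AddMonoidHom.mem_ker.1 v.2)⟩
        invFun := fun v => ⟨⟨v.1, by rw [hHm, v.2]; exact W.zero_mem⟩, ?_⟩
        left_inv := fun v => rfl
        right_inv := fun v => rfl }
    rw [AddMonoidHom.mem_ker, hψx]
    exact v.2
  rw [h0, CNT_card ψ, hr, hk, hW, mul_comm]

section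

variable {G : Type} [AddCommGroup G] {m : ℕ}

/-- The kernel part. -/
def CNT_K (W : AddSubgroup (G × ZMod m)) : AddSubgroup G := W.comap (AddMonoidHom.inl G (ZMod m))

/-- The projection. -/
def CNT_P (W : AddSubgroup (G × ZMod m)) : AddSubgroup (ZMod m) :=
  W.map (AddMonoidHom.snd G (ZMod m))

theorem CNT_memK (W : AddSubgroup (G × ZMod m)) (u : G) :
    u ∈ CNT_K W ↔ ((u, 0) : G × ZMod m) ∈ W := Iff.rfl

theorem CNT_memP (W : AddSubgroup (G × ZMod m)) (x : ZMod m) :
    x ∈ CNT_P W ↔ ∃ u : G, ((u, x) : G × ZMod m) ∈ W := by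
  unfold CNT_P
  rw [AddSubgroup.mem_map]
  constructor
  · rintro ⟨⟨u, y⟩, h, rfl⟩
    exact ⟨u, h⟩
  · rintro ⟨u, h⟩
    exact ⟨(u, x), h, rfl⟩

theorem CNT_KP (W : AddSubgroup (G × ZMod m)) :
    Nat.card W = Nat.card (CNT_K W) * Nat.card (CNT_P W) := by
  set φ : W →+ ZMod m := (AddMonoidHom.snd G (ZMod m)).comp W.subtype with hφ
  have hφx : ∀ w : W, φ w = w.1.2 := fun w => rfl
  have hr : φ.range = CNT_P W := by
    ext x
    rw [AddMonoidHom.mem_range, CNT_memP]
    constructor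
    · rintro ⟨w, rfl⟩
      exact ⟨w.1.1, w.2⟩
    · rintro ⟨u, h⟩
      exact ⟨⟨(u, x), h⟩, rfl⟩
  have hk : Nat.card φ.ker = Nat.card (CNT_K W) := by
    apply Nat.card_congr
    refine
      { toFun := fun w => ⟨w.1.1.1, ?_⟩
        invFun := fun u => ⟨⟨(u.1, 0), u.2⟩, ?_⟩
        left_inv := ?_
        right_inv := fun u => rfl }
    · rw [CNT_memK]
      have h1 : w.1.1.2 = 0 := AddMonoidHom.mem_ker.1 w.2
      rw [← h1]
      exact w.1.2
    · rw [AddMonoidHom.mem_ker]
      rfl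
    · intro w
      have h1 : w.1.1.2 = 0 := AddMonoidHom.mem_ker.1 w.2
      apply Subtype.ext
      apply Subtype.ext
      apply Prod.ext
      · rfl
      · exact h1.symm
  rw [CNT_card φ, hr, hk]

theorem CNT_Peq (hm : 0 < m) (W : AddSubgroup (G × ZMod m)) (b : ℕ) (hb : b ∣ m)
    (h : Nat.card (CNT_P W) = b) : CNT_P W = AddSubgroup.zmultiples (CNT_g m b) := by
  haveI : NeZero m := ⟨hm.ne'⟩
  apply AddSubgroup.eq_of_le_of_card_ge
  · intro x hx
    apply CNT_mem m b hm hb
    have h2 : Nat.card (CNT_P W) • (⟨x, hx⟩ : CNT_P W) = 0 := card_nsmul_eq_zero'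
    rw [h] at h2
    have h3 := congrArg (fun x : CNT_P W => (x : ZMod m)) h2
    exact h3
  · rw [Nat.card_zmultiples, CNT_order m b hm hb, h]

/-- The subgroup generated by `W'` and `(v, g)`. -/
def CNT_M (m b : ℕ) (W' : AddSubgroup G) (v : G) : AddSubgroup (G × ZMod m) where
  carrier := {p | ∃ k : ℤ, p.2 = k • CNT_g m b ∧ p.1 - k • v ∈ W'}
  add_mem' := by
    rintro p q ⟨k, hk, hk'⟩ ⟨l, hl, hl'⟩
    refine ⟨k + l, ?_, ?_⟩
    · rw [Prod.snd_add, hk, hl, add_smul]
    · have h := W'.add_mem hk' hl'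
      have e : p.1 - k • v + (q.1 - l • v) = (p + q).1 - (k + l) • v := by
        rw [Prod.fst_add, add_smul]
        abel
      rwa [e] at h
  zero_mem' := ⟨0, by rw [zero_smul]; rfl, by
    rw [zero_smul, sub_zero]
    exact W'.zero_mem⟩
  neg_mem' := by
    rintro p ⟨k, hk, hk'⟩
    refine ⟨-k, ?_, ?_⟩
    · rw [Prod.snd_neg, hk, neg_smul]
    · have h := W'.neg_mem hk'
      have e : -(p.1 - k • v) = (-p).1 - (-k) • v := by
        rw [Prod.fst_neg, neg_smul]
        abel
      rwa [e] at h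

theorem CNT_memM (b : ℕ) (W' : AddSubgroup G) (v : G) (p : G × ZMod m) :
    p ∈ CNT_M m b W' v ↔ ∃ k : ℤ, p.2 = k • CNT_g m b ∧ p.1 - k • v ∈ W' := Iff.rfl

theorem CNT_KM (hm : 0 < m) (b : ℕ) (hb : b ∣ m) (W' : AddSubgroup G) (v : G)
    (hv : b • v ∈ W') : CNT_K (CNT_M m b W' v) = W' := by
  ext u
  rw [CNT_memK, CNT_memM]
  constructor
  · rintro ⟨k, hk, hk'⟩
    have h1 : (addOrderOf (CNT_g m b) : ℤ) ∣ k := addOrderOf_dvd_iff_zsmul_eq_zero.2 hk.symm
    rw [CNT_order m b hm hb] at h1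
    obtain ⟨l, rfl⟩ := h1
    have h2 : ((b : ℤ) * l) • v ∈ W' := by
      rw [mul_comm, mul_smul, natCast_zsmul]
      exact W'.zsmul_mem hv l
    have h3 := W'.add_mem hk' h2
    simpa using h3
  · intro hu
    refine ⟨0, ?_, ?_⟩
    · rw [zero_smul]
    · rw [zero_smul, sub_zero]
      exact hu

theorem CNT_PM (b : ℕ) (W' : AddSubgroup G) (v : G) :
    CNT_P (CNT_M m b W' v) = AddSubgroup.zmultiples (CNT_g m b) := by
  ext x
  rw [CNT_memP, AddSubgroup.mem_zmultiples_iff]
  constructor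
  · rintro ⟨u, k, hk, -⟩
    exact ⟨k, hk.symm⟩
  · rintro ⟨k, rfl⟩
    refine ⟨k • v, k, rfl, ?_⟩
    rw [sub_self]
    exact W'.zero_mem

theorem CNT_MK (b : ℕ) (W : AddSubgroup (G × ZMod m)) (v : G)
    (hP : CNT_P W = AddSubgroup.zmultiples (CNT_g m b)) (hv : (v, CNT_g m b) ∈ W) :
    CNT_M m b (CNT_K W) v = W := by
  ext ⟨u, x⟩
  rw [CNT_memM]
  constructor
  · rintro ⟨k, hk, hk'⟩
    rw [CNT_memK] at hk'
    have h := W.add_mem hk' (W.zsmul_mem hv k)
    have e : ((u - k • v, (0 : ZMod m)) : G × ZMod m) + k • (v, CNT_g m b) = (u, x) := by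
      apply Prod.ext
      · show u - k • v + k • v = u
        rw [sub_add_cancel]
      · show 0 + k • CNT_g m b = x
        rw [zero_add]
        exact hk.symm
    dsimp only at h
    rwa [e] at h
  · intro hW
    have hx : x ∈ CNT_P W := (CNT_memP W x).2 ⟨u, hW⟩
    rw [hP, AddSubgroup.mem_zmultiples_iff] at hx
    obtain ⟨k, hk⟩ := hx
    refine ⟨k, hk.symm, ?_⟩
    rw [CNT_memK]
    have h := W.sub_mem hW (W.zsmul_mem hv k)
    have e : ((u, x) : G × ZMod m) - k • (v, CNT_g m b) = (u - k • v, 0) := by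
      apply Prod.ext
      · rfl
      · show x - k • CNT_g m b = 0
        rw [hk, sub_self]
    rwa [e] at h

theorem CNT_fib (b : ℕ) (W : AddSubgroup (G × ZMod m))
    (hP : CNT_P W = AddSubgroup.zmultiples (CNT_g m b)) :
    Nat.card {v : G // (v, CNT_g m b) ∈ W} = Nat.card (CNT_K W) := by
  have h1 : CNT_g m b ∈ CNT_P W := by
    rw [hP]
    exact AddSubgroup.mem_zmultiples _
  obtain ⟨v₀, hv₀⟩ := (CNT_memP W _).1 h1
  apply Nat.card_congr
  refine
    { toFun := fun v => ⟨v.1 - v₀, ?_⟩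
      invFun := fun u => ⟨u.1 + v₀, ?_⟩
      left_inv := fun v => Subtype.ext (sub_add_cancel _ _)
      right_inv := fun u => Subtype.ext (add_sub_cancel_right _ _) }
  · rw [CNT_memK]
    have h := W.sub_mem v.2 hv₀
    rw [Prod.mk_sub_mk, sub_self] at h
    exact h
  · have h := W.add_mem ((CNT_memK W _).1 u.2) hv₀
    rw [Prod.mk_add_mk, zero_add] at h
    exact h

end

/-- Counting pairs. -/
theorem CNT_prod {X Y : Type} [Fintype X] [Fintype Y] (p : X → Prop) (r : X → Y → Prop)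
    [DecidablePred p] [∀ x, DecidablePred (r x)] [DecidablePred fun q : X × Y => p q.1 ∧ r q.1 q.2] :
    (univ.filter fun q : X × Y => p q.1 ∧ r q.1 q.2).card =
      ∑ x ∈ univ.filter p, (univ.filter (r x)).card := by
  rw [Finset.card_filter, Fintype.sum_prod_type, Finset.sum_filter]
  apply Finset.sum_congr rfl
  intro x _
  by_cases h : p x
  · rw [if_pos h, Finset.card_filter]
    apply Finset.sum_congr rfl
    intro y _
    simp [h]
  · rw [if_neg h]
    apply Finset.sum_eq_zero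
    intro y _
    simp [h]

theorem CNT_step (d m a b : ℕ) (hm : 0 < m) (ha : 0 < a) (hab : a * b ∣ m) :
    Nat.card {W : AddSubgroup ((Fin d → ZMod m) × ZMod m) //
      Nat.card (CNT_K W) = a ∧ Nat.card (CNT_P W) = b} =
    Nat.card {W : AddSubgroup (Fin d → ZMod m) // Nat.card W = a} * b ^ d := by
  classical
  haveI : NeZero m := ⟨hm.ne'⟩
  have hb : b ∣ m := dvd_trans (dvd_mul_left b a) hab
  haveI : Fintype (AddSubgroup ((Fin d → ZMod m) × ZMod m)) := Fintype.ofFinite _
  haveI : Fintype (AddSubgroup (Fin d → ZMod m)) := Fintype.ofFinite _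
  have hA := CNT_prod (X := AddSubgroup ((Fin d → ZMod m) × ZMod m)) (Y := Fin d → ZMod m)
    (fun W => Nat.card (CNT_K W) = a ∧ Nat.card (CNT_P W) = b)
    (fun W v => (v, CNT_g m b) ∈ W)
  have hB := CNT_prod (X := AddSubgroup (Fin d → ZMod m)) (Y := Fin d → ZMod m)
    (fun W => Nat.card W = a) (fun W v => b • v ∈ W)
  have hAB : (univ.filter fun q : AddSubgroup ((Fin d → ZMod m) × ZMod m) × (Fin d → ZMod m) =>
      (Nat.card (CNT_K q.1) = a ∧ Nat.card (CNT_P q.1) = b) ∧ (q.2, CNT_g m b) ∈ q.1).card =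
      (univ.filter fun q : AddSubgroup (Fin d → ZMod m) × (Fin d → ZMod m) =>
        Nat.card q.1 = a ∧ b • q.2 ∈ q.1).card := by
    apply Finset.card_nbij' (fun q => (CNT_K q.1, q.2)) (fun q => (CNT_M m b q.1 q.2, q.2))
    · intro q hq
      rw [mem_coe, mem_filter] at hq ⊢
      obtain ⟨-, ⟨h1, h2⟩, h3⟩ := hq
      refine ⟨mem_univ _, h1, ?_⟩
      show b • q.2 ∈ CNT_K q.1
      rw [CNT_memK]
      have h4 := q.1.nsmul_mem h3 b
      have h5 : b • CNT_g m b = 0 := by
        have h6 := addOrderOf_nsmul_eq_zero (CNT_g m b)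
        rwa [CNT_order m b hm hb] at h6
      have e : b • ((q.2, CNT_g m b) : (Fin d → ZMod m) × ZMod m) = (b • q.2, 0) := by
        apply Prod.ext
        · rfl
        · exact h5
      rwa [e] at h4
    · intro q hq
      rw [mem_coe, mem_filter] at hq ⊢
      obtain ⟨-, h1, h2⟩ := hq
      refine ⟨mem_univ _, ⟨?_, ?_⟩, ?_⟩
      · show Nat.card (CNT_K (CNT_M m b q.1 q.2)) = a
        rw [CNT_KM hm b hb q.1 q.2 h2, h1]
      · show Nat.card (CNT_P (CNT_M m b q.1 q.2)) = b
        rw [CNT_PM, Nat.card_zmultiples, CNT_order m b hm hb]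
      · show (q.2, CNT_g m b) ∈ CNT_M m b q.1 q.2
        rw [CNT_memM]
        refine ⟨1, by rw [one_smul], ?_⟩
        rw [one_smul, sub_self]
        exact q.1.zero_mem
    · intro q hq
      rw [mem_coe, mem_filter] at hq
      obtain ⟨-, ⟨h1, h2⟩, h3⟩ := hq
      show (CNT_M m b (CNT_K q.1) q.2, q.2) = q
      rw [CNT_MK b q.1 q.2 (CNT_Peq hm q.1 b hb h2) h3]
    · intro q hq
      rw [mem_coe, mem_filter] at hq
      obtain ⟨-, h1, h2⟩ := hq
      show (CNT_K (CNT_M m b q.1 q.2), q.2) = q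
      rw [CNT_KM hm b hb q.1 q.2 h2]
  have hA' : ∑ W ∈ univ.filter (fun W : AddSubgroup ((Fin d → ZMod m) × ZMod m) =>
      Nat.card (CNT_K W) = a ∧ Nat.card (CNT_P W) = b),
      (univ.filter fun v : Fin d → ZMod m => (v, CNT_g m b) ∈ W).card =
      (univ.filter (fun W : AddSubgroup ((Fin d → ZMod m) × ZMod m) =>
        Nat.card (CNT_K W) = a ∧ Nat.card (CNT_P W) = b)).card * a := by
    rw [← smul_eq_mul]
    apply Finset.sum_const_nat
    intro W hW
    rw [mem_filter] at hW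
    obtain ⟨-, h1, h2⟩ := hW
    have h3 := CNT_fib b W (CNT_Peq hm W b hb h2)
    rw [h1, Nat.card_eq_fintype_card, Fintype.card_subtype] at h3
    exact h3
  have hB' : ∑ W ∈ univ.filter (fun W : AddSubgroup (Fin d → ZMod m) => Nat.card W = a),
      (univ.filter fun v : Fin d → ZMod m => b • v ∈ W).card =
      (univ.filter (fun W : AddSubgroup (Fin d → ZMod m) => Nat.card W = a)).card *
        (a * b ^ d) := by
    rw [← smul_eq_mul]
    apply Finset.sum_const_nat
    intro W hW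
    rw [mem_filter] at hW
    have h3 := CNT_pre d m a b hm hab W hW.2
    rw [Nat.card_eq_fintype_card, Fintype.card_subtype] at h3
    exact h3
  rw [Nat.card_eq_fintype_card, Fintype.card_subtype, Nat.card_eq_fintype_card,
    Fintype.card_subtype]
  apply Nat.eq_of_mul_eq_mul_right ha
  rw [← hA', ← hA, hAB, hB, hB']
  ring

/-- The number of subgroups of order `w`. -/
theorem CNT_fiber (d m w : ℕ) (hm : 0 < m) (hw : w ∣ m) :
    Nat.card {W : AddSubgroup ((Fin d → ZMod m) × ZMod m) // Nat.card W = w} =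
      ∑ x ∈ w.divisorsAntidiagonal,
        Nat.card {W : AddSubgroup ((Fin d → ZMod m) × ZMod m) //
          Nat.card (CNT_K W) = x.1 ∧ Nat.card (CNT_P W) = x.2} := by
  classical
  haveI : NeZero m := ⟨hm.ne'⟩
  have hw0 : w ≠ 0 := fun h => hm.ne' (Nat.eq_zero_of_zero_dvd (h ▸ hw))
  haveI : Fintype (AddSubgroup ((Fin d → ZMod m) × ZMod m)) := Fintype.ofFinite _
  rw [Nat.card_eq_fintype_card, Fintype.card_subtype]
  rw [Finset.card_eq_sum_card_fiberwise
    (f := fun W : AddSubgroup ((Fin d → ZMod m) × ZMod m) =>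
      (Nat.card (CNT_K W), Nat.card (CNT_P W))) (t := w.divisorsAntidiagonal)]
  · apply Finset.sum_congr rfl
    intro x hx
    rw [Nat.mem_divisorsAntidiagonal] at hx
    rw [Nat.card_eq_fintype_card, Fintype.card_subtype]
    congr 1
    ext W
    simp only [mem_filter, mem_univ, true_and]
    constructor
    · rintro ⟨-, h⟩
      exact ⟨congrArg Prod.fst h, congrArg Prod.snd h⟩
    · rintro ⟨h1, h2⟩
      refine ⟨?_, Prod.ext h1 h2⟩
      rw [CNT_KP W, h1, h2]
      exact hx.1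
  · intro W hW
    rw [mem_coe, mem_filter] at hW
    rw [mem_coe, Nat.mem_divisorsAntidiagonal]
    refine ⟨?_, hw0⟩
    show Nat.card (CNT_K W) * Nat.card (CNT_P W) = w
    rw [← CNT_KP W]
    exact hW.2

/-- Splitting off a coordinate. -/
def CNT_e (d m : ℕ) : (Fin (d + 1) → ZMod m) ≃+ (Fin d → ZMod m) × ZMod m where
  toFun v := (fun i => v i.succ, v 0)
  invFun p := Fin.cons p.2 p.1
  left_inv v := by
    funext i
    refine Fin.cases ?_ (fun j => ?_) i
    · rfl
    · rfl
  right_inv p := rfl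
  map_add' v w := rfl

theorem CNT : CNT_stmt := by
  intro d
  induction d with
  | zero =>
    intro w m hm hw
    haveI : Subsingleton (Fin 0 → ZMod m) := inferInstance
    have h1 : ∀ W : AddSubgroup (Fin 0 → ZMod m), Nat.card W = 1 := by
      intro W
      rw [Nat.card_eq_one_iff_unique]
      exact ⟨inferInstance, ⟨0⟩⟩
    show _ = if w = 1 then 1 else 0
    by_cases hw1 : w = 1
    · rw [if_pos hw1, hw1, Nat.card_eq_one_iff_unique]
      refine ⟨⟨?_⟩, ⟨⟨⊥, h1 ⊥⟩⟩⟩
      intro A B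
      apply Subtype.ext
      apply AddSubgroup.ext
      intro x
      have hx : x = 0 := Subsingleton.elim _ _
      rw [hx]
      exact ⟨fun _ => B.1.zero_mem, fun _ => A.1.zero_mem⟩
    · rw [if_neg hw1]
      haveI : IsEmpty {W : AddSubgroup (Fin 0 → ZMod m) // Nat.card W = w} :=
        ⟨fun W => hw1 (by rw [← W.2, h1])⟩
      exact Nat.card_of_isEmpty
  | succ d ih =>
    intro w m hm hw
    have h1 : Nat.card {W : AddSubgroup (Fin (d + 1) → ZMod m) // Nat.card W = w} =
        Nat.card {W : AddSubgroup ((Fin d → ZMod m) × ZMod m) // Nat.card W = w} := by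
      apply Nat.card_congr
      refine Equiv.subtypeEquiv (CNT_e d m).mapAddSubgroup.toEquiv ?_
      intro W
      have h2 : Nat.card W = Nat.card ((CNT_e d m).mapAddSubgroup W) :=
        Nat.card_congr ((CNT_e d m).addSubgroupMap W).toEquiv
      show Nat.card W = w ↔ Nat.card ((CNT_e d m).mapAddSubgroup W) = w
      rw [h2]
    rw [h1, CNT_fiber d m w hm hw]
    show _ = ∑ x ∈ w.divisorsAntidiagonal, cc d x.1 * x.2 ^ d
    apply Finset.sum_congr rfl
    intro x hx
    rw [Nat.mem_divisorsAntidiagonal] at hx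
    obtain ⟨hx1, hx2⟩ := hx
    have ha : 0 < x.1 := by
      rcases Nat.eq_zero_or_pos x.1 with h | h
      · rw [h, zero_mul] at hx1
        exact absurd hx1.symm hx2
      · exact h
    have hab : x.1 * x.2 ∣ m := by
      rw [hx1]
      exact hw
    rw [CNT_step d m x.1 x.2 hm ha hab, ih x.1 m hm (dvd_trans (dvd_mul_right _ _) hab)]

end Pool.Agent.BRZ
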